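import Pool.Agent.Q106.WordRep
import Pool.Agent.Q106.LineWR

/-!
# Graphs with word-representable line graph have no finite list of forbidden subgraphs

The line graph of a wheel `W_n` with `n ≥ 4` is not word-representable (Kitaev, Salimov, Severs,
Úlfarsson); we prove this with counting functions (`Pool/Agent/Q106/LineWR.lean`). The line graph of a
subgraph of a fan (a path together with a vertex adjacent to all its vertices) is word-representable: it
has a semi-transitive orientation. A graph with at most `n - 1` vertices which is contained in `W_n`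
misses a vertex of the cycle of `W_n`, so it is contained in a fan. Hence no finite family works.
-/

set_option autoImplicit false

namespace Pool.Agent.Results.MP_c3beeb_co.NoFiniteFamily

open SimpleGraph

open Classical in
/-- The letters `a` and `b` alternate in the word `w`: both occur, and if all the other letters are
deleted from `w`, then no two consecutive letters of the remaining word are equal. -/
def Alternate {V : Type*} (w : List V) (a b : V) : Prop :=
  a ∈ w ∧ b ∈ w ∧ (w.filter (fun z => z = a ∨ z = b)).IsChain (· ≠ ·)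

/-- `G` is word-representable: there is a word `w` in which every vertex occurs, such that distinct
vertices `a` and `b` are adjacent if and only if they alternate in `w`. -/
def WordRepresentable {V : Type*} (G : SimpleGraph V) : Prop :=
  ∃ w : List V, (∀ v, v ∈ w) ∧ ∀ a b, a ≠ b → (G.Adj a b ↔ Alternate w a b)

theorem filter_inst {V : Type*} (w : List V) (a b : V) (i1 i2 : ∀ z, Decidable (z = a ∨ z = b)) :
    (w.filter (fun z => @decide (z = a ∨ z = b) (i1 z))) =
      (w.filter (fun z => @decide (z = a ∨ z = b) (i2 z))) := by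
  have h : i1 = i2 := funext fun z => Subsingleton.elim _ _
  rw [h]

/-! ### Wheels -/

/-- The wheel: the cycle of length `n` (for `n ≥ 3`) on the vertices `some i`, and the vertex `none`
adjacent to all of them. -/
def wheel (n : ℕ) : SimpleGraph (Option (ZMod n)) where
  Adj a b := a ≠ b ∧ (a = none ∨ b = none ∨
    ∃ i, (a = some i ∧ b = some (i + 1)) ∨ (b = some i ∧ a = some (i + 1)))
  symm.symm := by
    rintro a b ⟨h1, h2⟩
    refine ⟨Ne.symm h1, ?_⟩
    rcases h2 with h | h | ⟨i, h⟩
    · exact Or.inr (Or.inl h)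
    · exact Or.inl h
    · exact Or.inr (Or.inr ⟨i, h.symm⟩)
  loopless.irrefl := fun a h => h.1 rfl

open Pool.Agent.Q106.LineWR in
theorem wheel_not {n : ℕ} (hn : 4 ≤ n) : ¬ WordRepresentable (wheel n).lineGraph := by
  classical
  rintro ⟨w, hw, hadj⟩
  have : NeZero n := ⟨by omega⟩
  have nz : ∀ m : ℕ, 0 < m → m < n → (m : ZMod n) ≠ 0 := by
    intro m hm1 hm2 h
    rw [ZMod.natCast_eq_zero_iff] at h
    exact absurd (Nat.le_of_dvd hm1 h) (by omega)
  have z1 : (1 : ZMod n) ≠ 0 := by have := nz 1 (by omega) (by omega); simpa using this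
  have z2 : (2 : ZMod n) ≠ 0 := by have := nz 2 (by omega) (by omega); simpa using this
  have z3 : (3 : ZMod n) ≠ 0 := by have := nz 3 (by omega) (by omega); simpa using this
  have d1 : ∀ i : ZMod n, i ≠ i + 1 := fun i h => z1 (by linear_combination -h)
  have d2 : ∀ i : ZMod n, i ≠ i + 1 + 1 := fun i h => z2 (by linear_combination -h)
  have key : ∀ a b : (wheel n).edgeSet, a ≠ b →
      (Near (cnt w) a b ↔ ∃ v, v ∈ (a : Sym2 (Option (ZMod n))) ∧ v ∈ (b : Sym2 (Option (ZMod n)))) := by
    intro a b hab
    have h1 := hadj a b hab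
    rw [lineGraph_adj_iff_exists] at h1
    rw [← chain_iff_near hab]
    unfold Alternate at h1
    constructor
    · intro h
      exact (h1.2 ⟨hw a, hw b, (filter_inst w a b _ _) ▸ h⟩).2
    · intro h
      have := (h1.1 ⟨hab, h⟩).2.2
      exact (filter_inst w a b _ _) ▸ this
  let s : ZMod n → (wheel n).edgeSet := fun i => ⟨s(none, some i), by
    rw [mem_edgeSet]; exact ⟨by simp, Or.inl rfl⟩⟩
  let r : ZMod n → (wheel n).edgeSet := fun i => ⟨s(some i, some (i + 1)), by
    rw [mem_edgeSet]
    exact ⟨fun h => d1 i (Option.some.inj h), Or.inr (Or.inr ⟨i, Or.inl ⟨rfl, rfl⟩⟩)⟩⟩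
  have hs : Function.Injective s := by
    intro i j h
    have : s(none, some i) = s(none, some j) := congrArg Subtype.val h
    simpa using this
  have hsr : ∀ i j, s i ≠ r j := by
    intro i j h
    have : s(none, some i) = s(some j, some (j + 1)) := congrArg Subtype.val h
    simp at this
  have hrr : ∀ i j, i ≠ j → i ≠ j + 1 → r i ≠ r j := by
    intro i j h1 h2 h
    have : s(some i, some (i + 1)) = s(some j, some (j + 1)) := congrArg Subtype.val h
    simp only [Sym2.eq_iff, Option.some.injEq] at this
    rcases this with h | h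
    · exact h1 h.1
    · exact h2 h.1
  refine core (c := cnt w) (cnt_zero w) (fun x y hxy => not_const hxy (hw x)) hn s r hs hsr
    ?_ ?_ ?_ ?_ ?_ ?_
  · intro i j hij
    rw [key _ _ (hs.ne hij)]
    exact ⟨none, by simp [s]⟩
  · intro i
    rw [key _ _ (hsr _ _)]
    exact ⟨some i, by simp [s, r]⟩
  · intro i
    rw [key _ _ (hsr _ _)]
    exact ⟨some (i + 1), by simp [s, r]⟩
  · intro i
    rw [key _ _ (hrr _ _ (d1 i) (d2 i))]
    exact ⟨some (i + 1), by simp [r]⟩
  · intro i j h1 h2
    rw [key _ _ (hsr _ _)]
    rintro ⟨v, hv1, hv2⟩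
    simp only [s, r, Sym2.mem_iff] at hv1 hv2
    rcases hv1 with rfl | rfl
    · simp at hv2
    · simp only [Option.some.injEq] at hv2
      rcases hv2 with h | h
      · exact h1 h
      · exact h2 h
  · intro i
    have e1 : i ≠ i + 2 := fun h => z2 (by linear_combination -h)
    have e2 : i ≠ i + 2 + 1 := fun h => z3 (by linear_combination -h)
    have e3 : i + 1 ≠ i + 2 := fun h => z1 (by linear_combination -h)
    have e4 : i + 1 ≠ i + 2 + 1 := fun h => z2 (by linear_combination -h)
    rw [key _ _ (hrr _ _ e1 e2)]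
    rintro ⟨v, hv1, hv2⟩
    simp only [r, Sym2.mem_iff] at hv1 hv2
    rcases hv1 with rfl | rfl
    · simp only [Option.some.injEq] at hv2
      rcases hv2 with h | h
      · exact e1 h
      · exact e2 h
    · simp only [Option.some.injEq] at hv2
      rcases hv2 with h | h
      · exact e3 h
      · exact e4 h

/-! ### Fans -/

/-- the infinite fan -/
def fan : SimpleGraph (Option ℕ) where
  Adj a b := a ≠ b ∧ (a = none ∨ b = none ∨
    ∃ i, (a = some i ∧ b = some (i + 1)) ∨ (b = some i ∧ a = some (i + 1)))
  symm.symm := by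
    rintro a b ⟨h1, h2⟩
    refine ⟨Ne.symm h1, ?_⟩
    rcases h2 with h | h | ⟨i, h⟩
    · exact Or.inr (Or.inl h)
    · exact Or.inl h
    · exact Or.inr (Or.inr ⟨i, h.symm⟩)
  loopless.irrefl := fun a h => h.1 rfl

/-- the edges of the fan -/
def code : ℕ ⊕ ℕ → Sym2 (Option ℕ)
  | Sum.inl i => s(some i, some (i + 1))
  | Sum.inr i => s(none, some i)

theorem exists_code (e : fan.edgeSet) : ∃ x, code x = e := by
  obtain ⟨e, he⟩ := e
  induction e with
  | h a b =>
    rw [mem_edgeSet] at he
    obtain ⟨h1, h2⟩ := he
    rcases h2 with rfl | rfl | ⟨i, ⟨rfl, rfl⟩ | ⟨rfl, rfl⟩⟩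
    · cases b with
      | none => exact absurd rfl h1
      | some b => exact ⟨Sum.inr b, rfl⟩
    · cases a with
      | none => exact absurd rfl h1
      | some a => exact ⟨Sum.inr a, Sym2.eq_swap⟩
    · exact ⟨Sum.inl i, rfl⟩
    · exact ⟨Sum.inl i, Sym2.eq_swap⟩

/-- the orientation of the line graph of the fan -/
def M : ℕ ⊕ ℕ → ℕ ⊕ ℕ → Prop
  | Sum.inl i, Sum.inl j => j = i + 1
  | Sum.inl i, Sum.inr j => j = i ∨ j = i + 1
  | Sum.inr i, Sum.inr j => i < j
  | Sum.inr _, Sum.inl _ => False

/-- a transitive relation which contains the orientation -/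
def T : ℕ ⊕ ℕ → ℕ ⊕ ℕ → Prop
  | Sum.inl i, Sum.inl j => i < j
  | Sum.inl i, Sum.inr j => i ≤ j
  | Sum.inr i, Sum.inr j => i < j
  | Sum.inr _, Sum.inl _ => False

theorem M_T {x y : ℕ ⊕ ℕ} (h : M x y) : T x y := by
  rcases x with i | i <;> rcases y with j | j <;> simp only [M, T] at h ⊢ <;> omega

theorem T_trans {x y z : ℕ ⊕ ℕ} (h1 : T x y) (h2 : T y z) : T x z := by
  rcases x with i | i <;> rcases y with j | j <;> rcases z with k | k <;>
    simp only [T] at h1 h2 ⊢ <;> omega

theorem M_semi {x y z : ℕ ⊕ ℕ} (h : M x z) (h1 : T x y) (h2 : T y z) : M x y ∧ M y z := by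
  rcases x with i | i <;> rcases y with j | j <;> rcases z with k | k <;>
    simp only [T, M] at h h1 h2 ⊢ <;> omega

theorem M_iff (x y : ℕ ⊕ ℕ) : (M x y ∨ M y x) ↔ (x ≠ y ∧ ∃ v, v ∈ code x ∧ v ∈ code y) := by
  rcases x with i | i <;> rcases y with j | j <;> simp only [M, code, Sym2.mem_iff]
  · constructor
    · rintro (rfl | rfl)
      · exact ⟨by simp, some (i + 1), by simp⟩
      · exact ⟨by simp, some (j + 1), by simp⟩
    · rintro ⟨h1, v, h2, h3⟩
      have : i ≠ j := fun h => h1 (by rw [h])
      rcases h2 with rfl | rfl <;> simp only [Option.some.injEq] at h3 <;> omega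
  · constructor
    · rintro ((rfl | rfl) | h)
      · exact ⟨by simp, some j, by simp⟩
      · exact ⟨by simp, some (i + 1), by simp⟩
      · exact h.elim
    · rintro ⟨h1, v, h2, h3⟩
      rcases h2 with rfl | rfl <;> simp at h3 <;> omega
  · constructor
    · rintro (h | (rfl | rfl))
      · exact h.elim
      · exact ⟨by simp, some i, by simp⟩
      · exact ⟨by simp, some (j + 1), by simp⟩
    · rintro ⟨h1, v, h2, h3⟩
      rcases h3 with rfl | rfl <;> simp at h2 <;> omega
  · constructor
    · intro h
      refine ⟨fun h' => ?_, none, by simp⟩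
      simp only [Sum.inr.injEq] at h'
      omega
    · rintro ⟨h1, -⟩
      have : i ≠ j := fun h => h1 (by rw [h])
      omega

theorem code_injective : Function.Injective code := by
  intro x y h
  rcases x with i | i <;> rcases y with j | j <;> simp only [code, Sym2.eq_iff] at h
  · simp only [Option.some.injEq] at h
    congr 1; omega
  · simp at h
  · simp at h
  · simpa using h

theorem fan_adj (e f : fan.edgeSet) (x y : ℕ ⊕ ℕ) (hx : code x = e) (hy : code y = f) :
    fan.lineGraph.Adj e f ↔ (M x y ∨ M y x) := by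
  rw [lineGraph_adj_iff_exists, M_iff, ← hx, ← hy]
  refine and_congr ?_ Iff.rfl
  apply not_congr
  rw [← code_injective.eq_iff, hx, hy]
  exact Subtype.ext_iff

theorem wr_of_fan {U : Type*} [Finite U] {H : SimpleGraph U} (h : H ⊑ fan) :
    WordRepresentable H.lineGraph := by
  classical
  obtain ⟨g⟩ := h.isIndContained_lineGraph
  have := Fintype.ofFinite H.edgeSet
  choose l hl using fun e : H.edgeSet => exists_code (g e)
  let val : ℕ ⊕ ℕ → ℕ := Sum.elim id (fun _ => 0)
  let B : ℕ := ∑ e : H.edgeSet, (val (l e) + 1)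
  have hB : ∀ e i, l e = Sum.inl i → i < B := by
    intro e i he
    have h1 : val (l e) + 1 ≤ B :=
      Finset.single_le_sum (f := fun e => val (l e) + 1) (fun _ _ => Nat.zero_le _) (Finset.mem_univ e)
    rw [he] at h1
    simp only [val, Sum.elim_inl, id] at h1
    omega
  have hR : ∀ a b, H.lineGraph.Adj a b ↔ M (l a) (l b) ∨ M (l b) (l a) := by
    intro a b
    rw [← g.map_adj_iff, fan_adj _ _ _ _ (hl a) (hl b)]
  have hTG : ∀ a b, Relation.TransGen (fun a b => M (l a) (l b)) a b → T (l a) (l b) := by
    intro a b hab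
    induction hab with
    | single h => exact M_T h
    | tail _ h ih => exact T_trans ih (M_T h)
  obtain ⟨w, hw, hw2⟩ := Pool.Agent.Q106.WordRep.wr_of_semi H.lineGraph (fun a b => M (l a) (l b))
    (fun e => Sum.elim id (fun j => B + j) (l e)) hR (by
      intro a b hab
      have h1 := hB a
      have h2 := hB b
      rcases ha : l a with i | i <;> rcases hb : l b with j | j <;> rw [ha, hb] at hab <;>
        simp only [M] at hab <;> simp only [Sum.elim_inl, Sum.elim_inr, id]
      · omega
      · have := h1 i ha
        omega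
      · omega) (by
      intro u x z huz hux hxz
      exact M_semi huz (hTG _ _ hux) (hTG _ _ hxz))
  refine ⟨w, hw, fun a b hab => ?_⟩
  rw [← hw2 a b hab]
  unfold Pool.Agent.Q106.WordRep.Alternate Alternate
  constructor
  · intro h
    exact ⟨hw a, hw b, (filter_inst w a b _ _) ▸ h⟩
  · intro h
    exact (filter_inst w a b _ _) ▸ h.2.2

/-- a small graph which is contained in a wheel is contained in the fan -/
theorem to_fan {n : ℕ} (hn : 4 ≤ n) {U : Type*} [Finite U] {H : SimpleGraph U} (hU : Nat.card U < n)
    (h : H ⊑ wheel n) : H ⊑ fan := by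
  classical
  have : NeZero n := ⟨by omega⟩
  obtain ⟨f⟩ := h
  have := Fintype.ofFinite U
  -- a vertex of the cycle which is missed
  obtain ⟨j, hj⟩ : ∃ j : ZMod n, ∀ u, f u ≠ some j := by
    by_contra hcon
    push Not at hcon
    choose u hu using hcon
    have hinj : Function.Injective u := by
      intro a b hab
      have h1 := hu a
      rw [hab, hu b] at h1
      exact (Option.some.inj h1).symm
    have := Nat.card_le_card_of_injective u hinj
    rw [Nat.card_zmod] at this
    omega
  have hone : (1 : ZMod n).val = 1 := by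
    have := ZMod.val_natCast_of_lt (n := n) (a := 1) (by omega)
    simpa using this
  have hval : ∀ i : ZMod n, i + 1 ≠ j → (i + 1 - j).val = (i - j).val + 1 := by
    intro i hi
    have h1 : i + 1 - j = (i - j) + 1 := by ring
    have h2 : (i - j) + 1 ≠ 0 := fun h => hi (by linear_combination h)
    rw [h1]
    have h4 : (i - j).val + 1 < n := by
      have h5 := ZMod.val_lt (i - j)
      by_contra h6
      apply h2
      have h7 : (i - j).val + 1 = n := by omega
      have h8 : (((i - j).val + 1 : ℕ) : ZMod n) = 0 := by rw [h7]; simp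
      rwa [Nat.cast_add, ZMod.natCast_zmod_val, Nat.cast_one] at h8
    rw [ZMod.val_add_of_lt (by rw [hone]; exact h4), hone]
  let φ : Option (ZMod n) → Option ℕ := Option.map (fun i => (i - j).val)
  have hφ : Function.Injective φ := by
    apply Option.map_injective
    intro a b hab
    have := ZMod.val_injective n hab
    linear_combination this
  refine ⟨⟨⟨fun u => φ (f u), ?_⟩, fun a b hab => f.injective (hφ hab)⟩⟩
  intro a b hab
  have h1 : (wheel n).Adj (f a) (f b) := f.toHom.map_adj hab
  obtain ⟨h2, h3⟩ := h1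
  refine ⟨hφ.ne h2, ?_⟩
  rcases h3 with h | h | ⟨i, ⟨h, h'⟩ | ⟨h, h'⟩⟩
  · left; rw [h]; rfl
  · right; left; rw [h]; rfl
  · right; right
    refine ⟨(i - j).val, Or.inl ⟨by rw [h]; rfl, ?_⟩⟩
    rw [h']
    simp only [φ, Option.map_some, Option.some.injEq]
    exact hval i (fun e => hj b (by rw [h', e]))
  · right; right
    refine ⟨(i - j).val, Or.inr ⟨by rw [h]; rfl, ?_⟩⟩
    rw [h']
    simp only [φ, Option.map_some, Option.some.injEq]
    exact hval i (fun e => hj a (by rw [h', e]))

/-- **There is no finite family `F` of finite graphs such that a finite graph `G` has a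
word-representable line graph if and only if it is `F`-free.** This is proved both with free meant for
subgraphs (not necessarily induced) and meant for induced subgraphs. -/
theorem result {ι : Type} [Finite ι] (U : ι → Type) [∀ i, Finite (U i)]
    (F : ∀ i, SimpleGraph (U i)) :
    (∃ (V : Type) (_ : Finite V) (G : SimpleGraph V),
      ¬ (WordRepresentable G.lineGraph ↔ ∀ i, ¬ (F i).IsContained G)) ∧
    (∃ (V : Type) (_ : Finite V) (G : SimpleGraph V),
      ¬ (WordRepresentable G.lineGraph ↔ ∀ i, ¬ (F i).IsIndContained G)) := by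
  classical
  have := Fintype.ofFinite ι
  let n : ℕ := 4 + ∑ i, Nat.card (U i)
  have hn : 4 ≤ n := by simp [n]
  have : NeZero n := ⟨by omega⟩
  have hU : ∀ i, Nat.card (U i) < n := by
    intro i
    have := Finset.single_le_sum (f := fun i => Nat.card (U i)) (fun _ _ => Nat.zero_le _)
      (Finset.mem_univ i)
    simp only [n]
    omega
  have hsmall : ∀ i, F i ⊑ wheel n → WordRepresentable (F i).lineGraph :=
    fun i h => wr_of_fan (to_fan hn (hU i) h)
  constructor
  · by_contra hcon
    have hcon' : ∀ (V : Type) (_ : Finite V) (G : SimpleGraph V),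
        (WordRepresentable G.lineGraph ↔ ∀ i, ¬ (F i).IsContained G) := by
      intro V hV G
      by_contra h
      exact hcon ⟨V, hV, G, h⟩
    have h1 := (hcon' (Option (ZMod n)) inferInstance (wheel n)).not.1 (wheel_not hn)
    obtain ⟨i, hi⟩ := not_forall.1 h1
    exact (hcon' (U i) inferInstance (F i)).1 (hsmall i (not_not.1 hi)) i (IsContained.refl _)
  · by_contra hcon
    have hcon' : ∀ (V : Type) (_ : Finite V) (G : SimpleGraph V),
        (WordRepresentable G.lineGraph ↔ ∀ i, ¬ (F i).IsIndContained G) := by
      intro V hV G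
      by_contra h
      exact hcon ⟨V, hV, G, h⟩
    have h1 := (hcon' (Option (ZMod n)) inferInstance (wheel n)).not.1 (wheel_not hn)
    obtain ⟨i, hi⟩ := not_forall.1 h1
    exact (hcon' (U i) inferInstance (F i)).1 (hsmall i (not_not.1 hi).isContained) i
      (IsIndContained.refl _)

end Pool.Agent.Results.MP_c3beeb_co.NoFiniteFamily
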